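import Pool.Agent.helper86.OF.SpecB

/-! # Module of:BL2 -/

set_option autoImplicit false

open scoped BigOperators

namespace Pool.Agent.OF

noncomputable section

open Classical

theorem BL2 (hBL1 : BL1_stmt) : BL2_stmt := by
  intro V _ K X D p x0 y0 r B c α hH hG hB γ hγ hγα hx0 hy0 x hx z hxz hcα hzy hxγ
  by_contra hzγ
  obtain ⟨-, h1⟩ := hBL1 V K X D p x0 y0 r B c α hH hG hB
  obtain ⟨hP, hhas, hev⟩ := h1 γ hγ hγα hx0 hy0
  have hKxz : K.Adj x z := (SimpleGraph.deleteEdges_adj.mp hxz).1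
  have hxx0 : x ≠ x0 := by
    rintro rfl
    exact hB.mis ⟨z, hxz, hcα⟩
  have hxy0 : x ≠ y0 := by
    rintro rfl
    exact hH.y0Y hx
  have hzX : z ∉ X := fun hz => hH.ind x hx z hz hKxz
  have hzx0 : z ≠ x0 := by
    rintro rfl
    exact hzX hH.x0X
  have hne : s(x, z) ≠ s(x0, y0) := by
    intro h
    rcases Sym2.eq_iff.mp h with ⟨h2, -⟩ | ⟨h2, -⟩
    · exact hxx0 h2
    · exact hxy0 h2
  have hc1 : Function.update c s(x0, y0) γ s(x, z) = α := by
    rw [Function.update_of_ne hne, hcα]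
  have hc1' : Function.update c s(x0, y0) γ s(z, x) = α := by
    rw [Sym2.eq_swap (a := z) (b := x)]
    exact hc1
  have hhx : ∀ i, (has K (Function.update c s(x0, y0) γ) x i ↔ has (Kd K x0 y0) c x i) :=
    hhas x hxx0 hxy0
  have hhz : ∀ i, (has K (Function.update c s(x0, y0) γ) z i ↔ has (Kd K x0 y0) c z i) :=
    hhas z hzx0 hzy
  -- the neighbours of the two vertices in the two colours
  have hnx : ∀ w, K.Adj x w → (Function.update c s(x0, y0) γ s(x, w) = α ∨
      Function.update c s(x0, y0) γ s(x, w) = γ) → w = z := by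
    intro w hw hc
    rcases hc with hc | hc
    · exact hP.2 x w z hw hKxz (hc.trans hc1.symm)
    · exact absurd ((hhx γ).mp ⟨w, hw, hc⟩) hxγ
  have hnz : ∀ w, K.Adj z w → (Function.update c s(x0, y0) γ s(z, w) = α ∨
      Function.update c s(x0, y0) γ s(z, w) = γ) → w = x := by
    intro w hw hc
    rcases hc with hc | hc
    · exact hP.2 z w x hw hKxz.symm (hc.trans hc1'.symm)
    · exact absurd ((hhz γ).mp ⟨w, hw, hc⟩) hzγ
  have hhalf : ∀ v w, K.Adj v w → (Function.update c s(x0, y0) γ s(v, w) = α ∨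
      Function.update c s(x0, y0) γ s(v, w) = γ) → v ∈ ({x, z} : Finset V) →
      w ∈ ({x, z} : Finset V) := by
    intro v w hvw hc hv
    rw [Finset.mem_insert, Finset.mem_singleton] at hv ⊢
    rcases hv with rfl | rfl
    · exact Or.inr (hnx w hvw hc)
    · exact Or.inl (hnz w hvw hc)
  have hcl : Kcl K (Function.update c s(x0, y0) γ) α γ ({x, z} : Finset V) := by
    intro v w hvw hc
    refine ⟨hhalf v w hvw hc, hhalf w v hvw.symm ?_⟩
    rw [Sym2.eq_swap (a := w) (b := v)]
    exact hc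
  have he := hev {x, z} hcl
  have hset : (X.filter fun x' => x' ∈ ({x, z} : Finset V) ∧
      ¬ (has K (Function.update c s(x0, y0) γ) x' α ↔
        has K (Function.update c s(x0, y0) γ) x' γ)) = {x} := by
    ext v
    rw [Finset.mem_filter, Finset.mem_singleton, Finset.mem_insert, Finset.mem_singleton]
    constructor
    · rintro ⟨hv, h2 | h2, -⟩
      · exact h2
      · exact absurd (h2 ▸ hv) hzX
    · rintro rfl
      refine ⟨hx, Or.inl rfl, fun h3 => ?_⟩
      exact hxγ ((hhx γ).mp (h3.mp ((hhx α).mpr ⟨z, hxz, hcα⟩)))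
  rw [hset, Finset.card_singleton] at he
  exact absurd he (by decide)

end

end Pool.Agent.OF
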