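import Pool.Agent.helper86.OF.SpecX

/-! # Module of:KB1 -/

set_option autoImplicit false

open scoped BigOperators

namespace Pool.Agent.OF

noncomputable section

open Classical

theorem KB1 : KB1_stmt := by
  intro V _ A X Z S T C m μ ε hK hC hT u hu hμu hst
  have hN : (0 : ℝ) < Fintype.card V := by
    have : 0 < Fintype.card V := Fintype.card_pos_iff.mpr ⟨u⟩
    exact_mod_cast this
  have he : 0 < ε * Fintype.card V := mul_pos hK.e0 hN
  unfold stk at hst
  rw [not_lt] at hst
  set B : Finset V := Finset.univ.filter fun b => b ∉ S ∧ C.Adj u b ∧ (m b = b ∨ m b ∉ X) with hB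
  constructor
  · by_contra hcon
    rw [not_or, not_le] at hcon
    obtain ⟨h1, h2⟩ := hcon
    unfold dns at h2
    rw [not_le] at h2
    have hsub : B ⊆ (Xᶜ.filter fun w => C.Adj u w) ∪ ((X.filter fun x => m x = x) ∪
        (X.filter fun x => m x ∉ X)) := by
      intro b hb
      rw [hB, Finset.mem_filter] at hb
      obtain ⟨-, -, hadj, hor⟩ := hb
      simp only [Finset.mem_union, Finset.mem_filter, Finset.mem_compl]
      by_cases hbX : b ∈ X
      · rcases hor with h | h
        · exact Or.inr (Or.inl ⟨hbX, h⟩)
        · exact Or.inr (Or.inr ⟨hbX, h⟩)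
      · exact Or.inl ⟨hbX, hadj⟩
    have hc : B.card ≤ (Xᶜ.filter fun w => C.Adj u w).card + ((X.filter fun x => m x = x).card +
        (X.filter fun x => m x ∉ X).card) :=
      (Finset.card_le_card hsub).trans ((Finset.card_union_le _ _).trans
        (Nat.add_le_add_left (Finset.card_union_le _ _) _))
    have hc' : (B.card : ℝ) ≤ (dgs C Xᶜ u : ℝ) + (((X.filter fun x => m x = x).card : ℝ) +
        ((X.filter fun x => m x ∉ X).card : ℝ)) := by
      unfold dgs
      exact_mod_cast hc
    have h3 := hK.rX
    nlinarith
  · -- the choice of `b`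
    have hinj : Function.Injective m := fun a b hab => by
      rw [← hK.inv a, ← hK.inv b, hab]
    have hex : ∃ b ∈ B, b ∉ T ∧ m b ∉ T ∧ (m b ∉ S ∨ m b = b) := by
      by_contra hcon
      push Not at hcon
      have hsub : B ⊆ T ∪ (T.image m ∪ S.image m) := by
        intro b hb
        simp only [Finset.mem_union, Finset.mem_image]
        by_cases hbT : b ∈ T
        · exact Or.inl hbT
        · by_cases hmT : m b ∈ T
          · exact Or.inr (Or.inl ⟨m b, hmT, hK.inv b⟩)
          · obtain ⟨h1, h2⟩ := hcon b hb hbT hmT
            exact Or.inr (Or.inr ⟨m b, h1, hK.inv b⟩)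
      have hc : B.card ≤ T.card + (T.card + S.card) :=
        (Finset.card_le_card hsub).trans ((Finset.card_union_le _ _).trans
          (Nat.add_le_add_left ((Finset.card_union_le _ _).trans
            (Nat.add_le_add Finset.card_image_le Finset.card_image_le)) _))
      have hc' : (B.card : ℝ) ≤ (T.card : ℝ) + ((T.card : ℝ) + (S.card : ℝ)) := by
        exact_mod_cast hc
      have h3 := hK.szS
      nlinarith
    obtain ⟨b, hbB, hbT, hmT, hmS⟩ := hex
    rw [hB, Finset.mem_filter] at hbB
    obtain ⟨-, hbS, hadj, hor⟩ := hbB
    have hub : u ≠ b := hadj.ne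
    have hμb : μ b = m b := hC.off b hbT
    have hμmb : μ (m b) = b := by
      rw [hC.off _ hmT, hK.inv]
    have hmbu : m b ≠ u := by
      intro h
      rw [h, hμu] at hμmb
      exact hub hμmb
    set μ' : V → V := fun v => if v = u then b else if v = b then u else if v = m b then v else μ v
      with hμ'
    have e1 : μ' u = b := by simp [hμ']
    have e2 : μ' b = u := by simp [hμ', hub.symm]
    have e3 : m b ≠ b → μ' (m b) = m b := by
      intro h
      simp [hμ', hmbu, h]
    have e4 : ∀ v, v ≠ u → v ≠ b → v ≠ m b → μ' v = μ v := by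
      intro v h1 h2 h3
      simp [hμ', h1, h2, h3]
    refine ⟨μ', insert u (insert b (insert (m b) T)), ⟨?_, ?_, ?_, ?_⟩, ?_, ?_, ?_, ?_, ?_, ?_⟩
    · intro v
      by_cases h1 : v = u
      · rw [h1, e1, e2]
      · by_cases h2 : v = b
        · rw [h2, e2, e1]
        · by_cases h3 : v = m b
          · have h4 : m b ≠ b := h3 ▸ h2
            rw [h3, e3 h4, e3 h4]
          · rw [e4 v h1 h2 h3]
            have h4 : μ v ≠ u := fun h => h1 (by rw [← hC.inv v, h, hμu])
            have h5 : μ v ≠ b := fun h => h3 (by rw [← hC.inv v, h, hμb])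
            have h6 : μ v ≠ m b := fun h => h2 (by rw [← hC.inv v, h, hμmb])
            rw [e4 _ h4 h5 h6, hC.inv]
    · intro v hv
      simp only [Finset.mem_insert, not_or] at hv
      rw [e4 v hv.1 hv.2.1 hv.2.2.1]
      exact hC.off v hv.2.2.2
    · intro v hv
      simp only [Finset.mem_insert] at hv ⊢
      rcases hv with h | h | h | h
      · by_cases huT : u ∈ T
        · rw [h]
          exact Or.inr (Or.inr (Or.inr (hC.clo u huT)))
        · left
          rw [h, ← hC.off u huT, hμu]
      · rw [h]
        exact Or.inr (Or.inr (Or.inl rfl))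
      · rw [h, hK.inv]
        exact Or.inr (Or.inl rfl)
      · exact Or.inr (Or.inr (Or.inr (hC.clo v h)))
    · intro v hv
      by_cases h1 : v = u
      · rw [h1, e1]
        exact Or.inl hadj
      · by_cases h2 : v = b
        · rw [h2, e2]
          exact Or.inl hadj.symm
        · by_cases h3 : v = m b
          · exfalso
            have h4 : m b ≠ b := h3 ▸ h2
            rw [h3, e3 h4] at hv
            exact hv rfl
          · rw [e4 v h1 h2 h3] at hv ⊢
            exact hC.edg v hv
    · intro v hv
      simp only [Finset.mem_insert]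
      exact Or.inr (Or.inr (Or.inr hv))
    · have i1 := Finset.card_insert_le u (insert b (insert (m b) T))
      have i2 := Finset.card_insert_le b (insert (m b) T)
      have i3 := Finset.card_insert_le (m b) T
      omega
    · intro x hx hμx
      by_cases h1 : x = u
      · rw [h1, e1]
        exact hub.symm
      · by_cases h2 : x = b
        · rw [h2, e2]
          exact hub
        · by_cases h3 : x = m b
          · exfalso
            have h4 : m b ≠ b := h3 ▸ h2
            rcases hor with h5 | h5
            · exact h4 h5
            · exact h5 (h3 ▸ hx)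
          · rw [e4 x h1 h2 h3]
            exact hμx
    · rw [e1]
      exact hub.symm
    · intro v hv
      simp only [Finset.mem_insert] at hv
      rcases hv with h | h | h | h
      · exact Or.inr (Or.inl h)
      · exact Or.inr (Or.inr (h ▸ hbS))
      · rcases hmS with h4 | h4
        · exact Or.inr (Or.inr (h ▸ h4))
        · exact Or.inr (Or.inr (by rw [h, h4]; exact hbS))
      · exact Or.inl h
    · have hsub : (X.filter fun x => μ' x ≠ m x ∧ (μ' x ∉ X ∨ m x ∉ X)) ⊆
          insert u (insert b (insert (m b)
            (X.filter fun x => μ x ≠ m x ∧ (μ x ∉ X ∨ m x ∉ X)))) := by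
        intro v hv
        rw [Finset.mem_filter] at hv
        simp only [Finset.mem_insert, Finset.mem_filter]
        by_cases h1 : v = u
        · exact Or.inl h1
        · by_cases h2 : v = b
          · exact Or.inr (Or.inl h2)
          · by_cases h3 : v = m b
            · exact Or.inr (Or.inr (Or.inl h3))
            · rw [e4 v h1 h2 h3] at hv
              exact Or.inr (Or.inr (Or.inr hv))
      have i0 := Finset.card_le_card hsub
      have i1 := Finset.card_insert_le u (insert b (insert (m b)
            (X.filter fun x => μ x ≠ m x ∧ (μ x ∉ X ∨ m x ∉ X))))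
      have i2 := Finset.card_insert_le b (insert (m b)
            (X.filter fun x => μ x ≠ m x ∧ (μ x ∉ X ∨ m x ∉ X)))
      have i3 := Finset.card_insert_le (m b) (X.filter fun x => μ x ≠ m x ∧ (μ x ∉ X ∨ m x ∉ X))
      unfold xch
      omega

end

end Pool.Agent.OF
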